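import Pool.Agent.H39.OD.Targets

/-!
Row CNG of the board odp_modules (`MP_397744_co`): the image of a two-orbit realization under an
isometry.
-/

set_option autoImplicit false

namespace Pool.Agent.H78.OD

open Pool.Agent.H57.CP Pool.Agent.H39.TO Pool.Agent.H39.OD

variable {P : Type} [PartialOrder P]

theorem cng_im1 (rk : P → ℤ) (β : P → H3) (g : Equiv.Perm H3) (e : P) :
    im1 rk (fun x => g (β x)) e = g '' im1 rk β e := by
  unfold im1
  rw [Set.image_image]

theorem cng_im1' (rk : P → ℤ) (β : P → H3) (g : Equiv.Perm H3) :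
    im1 rk (fun x => g (β x)) = fun e => g '' im1 rk β e :=
  funext fun e => cng_im1 rk β g e

theorem cng_im2 (rk : P → ℤ) (β : P → H3) (g : Equiv.Perm H3) (f : P) :
    im2 rk (fun x => g (β x)) f = (Set.image g) '' im2 rk β f := by
  unfold im2
  rw [Set.image_image, cng_im1']

theorem cng_im2' (rk : P → ℤ) (β : P → H3) (g : Equiv.Perm H3) :
    im2 rk (fun x => g (β x)) = fun f => (Set.image g) '' im2 rk β f :=
  funext fun f => cng_im2 rk β g f

theorem cng_conj (s g : Equiv.Perm H3) (A : Set H3) :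
    (g.symm.trans (s.trans g)) '' (g '' A) = g '' (s '' A) := by
  rw [Set.image_image, Set.image_image]
  simp

theorem cng_conj2 (s g : Equiv.Perm H3) (B : Set (Set H3)) :
    (Set.image (g.symm.trans (s.trans g))) '' ((Set.image g) '' B) =
      (Set.image g) '' ((Set.image s) '' B) := by
  rw [Set.image_image, Set.image_image]
  refine Set.image_congr fun A _ => ?_
  exact cng_conj s g A

theorem cng_conj3 (s g : Equiv.Perm H3) (C : Set (Set (Set H3))) :
    (Set.image (Set.image (g.symm.trans (s.trans g)))) '' ((Set.image (Set.image g)) '' C) =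
      (Set.image (Set.image g)) '' ((Set.image (Set.image s)) '' C) := by
  rw [Set.image_image, Set.image_image]
  refine Set.image_congr fun B _ => ?_
  exact cng_conj2 s g B

theorem cng_iso_symm {g : Equiv.Perm H3} (hg : IsIso g) : IsIso g.symm := by
  intro x y
  have h := hg (g.symm x) (g.symm y)
  rw [Equiv.apply_symm_apply, Equiv.apply_symm_apply] at h
  exact h.symm

theorem cng_sym {rk : P → ℤ} {β : P → H3} {g s : Equiv.Perm H3} (hg : IsIso g)
    (hs : IsSymmetry rk β s) : IsSymmetry rk (fun x => g (β x)) (g.symm.trans (s.trans g)) := by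
  refine ⟨?_, ?_, ?_, ?_⟩
  · intro x y
    simp only [Equiv.trans_apply]
    rw [hg, hs.iso, cng_iso_symm hg]
  · have h : (fun x => g (β x)) '' {v | rk v = 0} = g '' (β '' {v | rk v = 0}) := by
      rw [Set.image_image]
    rw [h, cng_conj, hs.s0]
  · have h : im1 rk (fun x => g (β x)) '' {e | rk e = 1} =
        (Set.image g) '' (im1 rk β '' {e | rk e = 1}) := by
      rw [Set.image_image, cng_im1']
    rw [h, cng_conj2, hs.s1]
  · have h : im2 rk (fun x => g (β x)) '' {e | rk e = 2} =
        (Set.image (Set.image g)) '' (im2 rk β '' {e | rk e = 2}) := by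
      rw [Set.image_image, cng_im2']
    rw [h, cng_conj3, hs.s2]

theorem cng_orbit {rk : P → ℤ} {β : P → H3} {g : Equiv.Perm H3} (hg : IsIso g)
    {Φ Ψ : P × P × P} (h : SameOrbit rk β Φ Ψ) : SameOrbit rk (fun x => g (β x)) Φ Ψ := by
  obtain ⟨s, hs, h0, h1, h2⟩ := h
  refine ⟨g.symm.trans (s.trans g), cng_sym hg hs, ?_, ?_, ?_⟩
  · simp [h0]
  · rw [cng_im1, cng_im1, cng_conj, h1]
  · rw [cng_im2, cng_im2, cng_conj2, h2]

theorem cng_orbit_iff {rk : P → ℤ} {β : P → H3} {g : Equiv.Perm H3} (hg : IsIso g)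
    {Φ Ψ : P × P × P} : SameOrbit rk (fun x => g (β x)) Φ Ψ ↔ SameOrbit rk β Φ Ψ := by
  constructor
  · intro h
    have h' := cng_orbit (cng_iso_symm hg) h
    simp only [Equiv.symm_apply_apply] at h'
    exact h'
  · exact cng_orbit hg

theorem pf_CNG : T_CNG := by
  intro P _ _ rk β g hg hf ht
  refine ⟨⟨?_, ?_, ?_, ?_⟩, ⟨?_, ?_⟩, ?_⟩
  · intro v hv
    obtain ⟨ε, hε, h⟩ := hf.discrete v hv
    refine ⟨ε, hε, fun w hw hne => ?_⟩
    change 1 + ε ≤ ch (g (β v)) (g (β w))
    rw [hg]
    exact h w hw fun h' => hne (by change g (β w) = g (β v); rw [h'])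
  · intro v w hv hw h
    exact hf.inj0 v w hv hw (g.injective h)
  · intro e e' he he' h
    rw [cng_im1, cng_im1] at h
    exact hf.inj1 e e' he he' (Set.image_injective.2 g.injective h)
  · intro f f' hf1 hf2 h
    rw [cng_im2, cng_im2] at h
    exact hf.inj2 f f' hf1 hf2
      (Set.image_injective.2 (Set.image_injective.2 g.injective) h)
  · obtain ⟨Φ, Ψ, h1, h2, h3⟩ := ht.two
    exact ⟨Φ, Ψ, h1, h2, fun h => h3 ((cng_orbit_iff hg).1 h)⟩
  · intro Φ Ψ Θ h1 h2 h3
    rcases ht.le_two Φ Ψ Θ h1 h2 h3 with h | h | h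
    · exact Or.inl ((cng_orbit_iff hg).2 h)
    · exact Or.inr (Or.inl ((cng_orbit_iff hg).2 h))
    · exact Or.inr (Or.inr ((cng_orbit_iff hg).2 h))
  · unfold Kof mapG
    rw [Set.image_image, Set.image_image, Set.image_image, cng_im1', cng_im2']

end Pool.Agent.H78.OD
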